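import Pool.Agent.helper94.T5.SpecP

set_option autoImplicit false

/-!
# T5 (MP_16912e_nt), block P: row PB
-/

namespace Pool.Agent.T5P

open Finset

private lemma PB_two {p : ℕ} [hp : Fact p.Prime] (hp2 : p ≠ 2) : ¬ dv p (2 : ZMod (p ^ 2)) := by
  intro h
  unfold dv at h
  have h1 : (((p * 2 : ℕ)) : ZMod (p ^ 2)) = 0 := by
    push_cast
    exact h
  rw [ZMod.natCast_eq_zero_iff] at h1
  have hpp : 0 < p := hp.out.pos
  have h2 : p ∣ 2 := by
    rw [pow_two] at h1
    exact Nat.dvd_of_mul_dvd_mul_left hpp h1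
  have h3 := (Nat.prime_dvd_prime_iff_eq hp.out Nat.prime_two).1 h2
  exact hp2 h3

private lemma PB_zero (p : ℕ) : dv p (0 : ZMod (p ^ 2)) := by
  unfold dv
  rw [mul_zero]

private lemma PB_neg {p : ℕ} {x : ZMod (p ^ 2)} (h : dv p x) : dv p (-x) := by
  unfold dv at h ⊢
  rw [mul_neg, h, neg_zero]

/-- the condition forces `l = 0` and `p ∣ s` -/
private lemma PB_l (hPD : PD_stmt) {p : ℕ} [hp : Fact p.Prime] (hp2 : p ≠ 2)
    {z l s : ZMod (p ^ 2)} (hz : ¬ dv p z) (hl : dv p l) (h : nf p z l s) : l = 0 ∧ dv p s := by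
  obtain ⟨-, -, hmul, hunit, hzero, -, -⟩ := hPD p
  unfold nf at h
  rw [if_neg hp2] at h
  have h1 : dv p (s * s) := by
    have h0 : s * s = s ^ 2 := (sq s).symm
    rw [h0, h]
    exact (hmul _ _).2 (Or.inr hl)
  have h2 : dv p s := by
    rcases (hmul _ _).1 h1 with h2 | h2 <;> exact h2
  refine ⟨?_, h2⟩
  have h3 : s ^ 2 = 0 := by
    rw [sq s]
    exact hzero s s h2 h2
  have h4 : (4 * z ^ 2 : ZMod (p ^ 2)) * l = 0 := by
    rw [← h, h3]
  have h5 : IsUnit (4 * z ^ 2 : ZMod (p ^ 2)) := by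
    rw [hunit]
    intro h6
    rcases (hmul _ _).1 h6 with h7 | h7
    · have h8 : (4 : ZMod (p ^ 2)) = 2 * 2 := by norm_num
      rw [h8] at h7
      rcases (hmul _ _).1 h7 with h9 | h9 <;> exact PB_two hp2 h9
    · rw [sq z] at h7
      rcases (hmul _ _).1 h7 with h9 | h9 <;> exact hz h9
  exact (h5.mul_right_eq_zero).1 h4

theorem PB (hPD : PD_stmt) : PB_stmt := by
  intro p hp hp2 n k hn
  obtain ⟨-, hadd, hmul, hunit, hzero, -, hcard⟩ := hPD p
  constructor
  · intro hk
    have hk2 : k ^ 2 = 0 := by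
      rw [sq k]
      exact hzero k k hk hk
    have key : ∀ v : ZMod (p ^ 2) × ZMod (p ^ 2) × ZMod (p ^ 2),
        (¬ dv p (zz p k v.1 v.2.2) ∧ dv p (ll p n k v.1 v.2.1 v.2.2) ∧
          nf p (zz p k v.1 v.2.2) (ll p n k v.1 v.2.1 v.2.2) (ss p n k v.1 v.2.1 v.2.2)) ↔
        (¬ dv p v.1 ∧ v.2.1 = 0) := by
      rintro ⟨m, g, R⟩
      constructor
      · rintro ⟨h1, h2, h3⟩
        obtain ⟨h4, h5⟩ := PB_l hPD hp2 h1 h2 h3
        simp only at h1 h4 ⊢
        have hm : ¬ dv p m := by
          intro h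
          apply h1
          unfold zz
          apply hadd
          · rw [sq m]
            exact (hmul _ _).2 (Or.inl h)
          · exact (hmul _ _).2 (Or.inl hk)
        refine ⟨hm, ?_⟩
        unfold ll at h4
        rw [hk2, mul_zero, add_zero] at h4
        have h6 : IsUnit (n ^ 2 * m) := by
          rw [hunit]
          intro h
          rcases (hmul _ _).1 h with h7 | h7
          · rw [sq n] at h7
            rcases (hmul _ _).1 h7 with h9 | h9 <;> exact hn h9
          · exact hm h7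
        exact (h6.mul_right_eq_zero).1 h4
      · rintro ⟨hm, hg⟩
        simp only at hm hg ⊢
        subst hg
        have hl : ll p n k m 0 R = 0 := by
          unfold ll
          rw [hk2]
          ring
        refine ⟨?_, ?_, ?_⟩
        · intro h
          unfold zz at h
          have h1 : dv p (m ^ 2) := by
            have h2 : dv p (-(k * R)) := PB_neg ((hmul _ _).2 (Or.inl hk))
            have h3 := hadd _ _ h h2
            have h4 : m ^ 2 + k * R + -(k * R) = m ^ 2 := by ring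
            rw [h4] at h3
            exact h3
          rw [sq m] at h1
          rcases (hmul _ _).1 h1 with h9 | h9 <;> exact hm h9
        · rw [hl]
          exact PB_zero p
        · unfold nf
          rw [if_neg hp2, hl, mul_zero]
          unfold ss
          have h5 : (n ^ 2 * 0 * R - m * k * (m ^ 2 + k * R)) ^ 2 =
              k ^ 2 * (m * (m ^ 2 + k * R)) ^ 2 := by ring
          rw [h5, hk2, zero_mul]
    rw [Nat.card_congr (Equiv.subtypeEquivRight key)]
    have e : {v : ZMod (p ^ 2) × ZMod (p ^ 2) × ZMod (p ^ 2) // ¬ dv p v.1 ∧ v.2.1 = 0} ≃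
        {x : ZMod (p ^ 2) // ¬ dv p x} × ZMod (p ^ 2) :=
      { toFun := fun v => (⟨v.1.1, v.2.1⟩, v.1.2.2)
        invFun := fun w => ⟨(w.1.1, 0, w.2), w.1.2, rfl⟩
        left_inv := by
          rintro ⟨⟨m, g, R⟩, hm, hg⟩
          simp only at hg
          subst hg
          rfl
        right_inv := by
          rintro ⟨⟨m, hm⟩, R⟩
          rfl }
    rw [Nat.card_congr e, Nat.card_prod, hcard, Nat.card_zmod]
  · intro hk
    have key : IsEmpty {v : ZMod (p ^ 2) × ZMod (p ^ 2) × ZMod (p ^ 2) //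
        ¬ dv p (zz p k v.1 v.2.2) ∧ dv p (ll p n k v.1 v.2.1 v.2.2) ∧
        nf p (zz p k v.1 v.2.2) (ll p n k v.1 v.2.1 v.2.2) (ss p n k v.1 v.2.1 v.2.2)} := by
      constructor
      rintro ⟨⟨m, g, R⟩, h1, h2, h3⟩
      obtain ⟨h4, h5⟩ := PB_l hPD hp2 h1 h2 h3
      simp only at h1 h4 h5
      have h6 : m * ss p n k m g R = -(zz p k m R) ^ 2 * k + ll p n k m g R * R := by
        unfold ss zz ll
        ring
      rw [h4, zero_mul, add_zero] at h6
      have h7 : dv p (-(zz p k m R) ^ 2 * k) := by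
        rw [← h6]
        exact (hmul _ _).2 (Or.inr h5)
      rcases (hmul _ _).1 h7 with h8 | h8
      · have h9 := PB_neg h8
        rw [neg_neg, sq (zz p k m R)] at h9
        rcases (hmul _ _).1 h9 with h10 | h10 <;> exact h1 h10
      · exact hk h8
    exact Nat.card_of_isEmpty

end Pool.Agent.T5P
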