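import Pool.Agent.helper8.T5.SpecU

set_option autoImplicit false

/-!
# T5 (MP_16912e_nt), block U: row ULP
-/

namespace Pool.Agent.T5

open Finset NumberField Pool.Agent.helper3.FT Pool.Agent.helper47.RA

private lemma ULP_int (S : Finset ℤ) (T : ℝ) (hT : 0 ≤ T) (h : ∀ q ∈ S, |(q : ℝ)| ≤ T) :
    (S.card : ℝ) ≤ 2 * T + 1 := by
  have h1 : S ⊆ Finset.Icc (-⌊T⌋) ⌊T⌋ := by
    intro q hq
    have h2 := abs_le.1 (h q hq)
    rw [Finset.mem_Icc]
    constructor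
    · have h3 : -q ≤ ⌊T⌋ := by
        rw [Int.le_floor]
        push_cast
        linarith [h2.1]
      linarith
    · rw [Int.le_floor]
      exact h2.2
  have h2 := Finset.card_le_card h1
  have h0 : 0 ≤ ⌊T⌋ := Int.floor_nonneg.2 hT
  rw [Int.card_Icc] at h2
  have h3 : ((⌊T⌋ + 1 - -⌊T⌋).toNat : ℤ) = 2 * ⌊T⌋ + 1 := by
    rw [Int.toNat_of_nonneg (by linarith)]
    ring
  have h4 : (S.card : ℤ) ≤ 2 * ⌊T⌋ + 1 := by
    rw [← h3]
    exact_mod_cast h2
  have h5 : (S.card : ℝ) ≤ 2 * (⌊T⌋ : ℝ) + 1 := by exact_mod_cast h4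
  linarith [Int.floor_le T]

private lemma ULP_min {K : Type} [Field K] [NumberField K] (Q : QF K) (hD : Q.D < 0)
    (I : Ideal (𝓞 K)) (hI : I ≠ ⊥) :
    ∃ α ∈ I, α ≠ 0 ∧ ∀ x ∈ I, x ≠ 0 → Q.v₁ α ≤ Q.v₁ x := by
  classical
  obtain ⟨x₀, hx₀, hx₀'⟩ := Submodule.exists_mem_ne_zero_of_ne_bot hI
  have hex : ∃ n : ℕ, ∃ x ∈ I, x ≠ 0 ∧ Ideal.absNorm (Ideal.span {x}) = n :=
    ⟨_, x₀, hx₀, hx₀', rfl⟩
  obtain ⟨α, hα, hα0, hαn⟩ := Nat.find_spec hex
  refine ⟨α, hα, hα0, ?_⟩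
  intro x hx hx0
  have h1 : Nat.find hex ≤ Ideal.absNorm (Ideal.span {x}) := Nat.find_min' hex ⟨x, hx, hx0, rfl⟩
  rw [← hαn] at h1
  have h2 : ((Ideal.absNorm (Ideal.span {α}) : ℕ) : ℝ) ≤ ((Ideal.absNorm (Ideal.span {x}) : ℕ) : ℝ) := by
    exact_mod_cast h1
  rw [Q.hnorm, Q.hnorm, ← Q.himag hD α, ← Q.himag hD x] at h2
  nlinarith [Q.v₁_nonneg α, Q.v₁_nonneg x]

private lemma ULP_pos {K : Type} [Field K] [NumberField K] (Q : QF K) {x : 𝓞 K} (hx : x ≠ 0) :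
    0 < Q.v₁ x := by
  rcases (Q.v₁_nonneg x).lt_or_eq with h | h
  · exact h
  · exfalso
    have h1 := Q.hnorm x
    rw [← h, zero_mul] at h1
    have h2 : Ideal.absNorm (Ideal.span {x}) = 0 := by exact_mod_cast h1
    rw [Ideal.absNorm_eq_zero_iff, Ideal.span_singleton_eq_bot] at h2
    exact hx h2

/-- the fibre: `x - x₀` is an integer multiple of the shortest vector -/
private lemma ULP_fib {K : Type} [Field K] [NumberField K] (Q : QF K) (hD : Q.D < 0)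
    (I : Ideal (𝓞 K)) (α : 𝓞 K) (hα : α ∈ I) (hα0 : α ≠ 0)
    (hmin : ∀ x ∈ I, x ≠ 0 → Q.v₁ α ≤ Q.v₁ x) (y : 𝓞 K) (hy : y ∈ I)
    (hY : Q.Y (y * Q.cj α) = 0) : ∃ q : ℤ, y = q * α := by
  obtain ⟨e, he⟩ := (Q.Y_eq_zero_iff _).1 hY
  obtain ⟨M, hM, hMn⟩ := Q.exists_norm α
  have hs := ULP_pos Q hα0
  have hM0 : M ≠ 0 := by
    rintro rfl
    rw [abs_zero] at hMn
    have h2 : Ideal.absNorm (Ideal.span {α}) = 0 := by exact_mod_cast hMn
    rw [Ideal.absNorm_eq_zero_iff, Ideal.span_singleton_eq_bot] at h2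
    exact hα0 h2
  have hMs : |(M : ℝ)| = Q.v₁ α * Q.v₁ α := by
    have h1 := Q.hnorm α
    rw [← Q.himag hD α] at h1
    rw [← h1]
    have h2 : ((Ideal.absNorm (Ideal.span {α}) : ℕ) : ℝ) = ((|M| : ℤ) : ℝ) := by
      rw [← hMn]
      push_cast
      rfl
    rw [h2, Int.cast_abs]
  -- nearest integer to e / M
  refine ⟨round ((e : ℝ) / M), ?_⟩
  by_contra hne
  set q : ℤ := round ((e : ℝ) / M) with hq
  have hmem : y - q * α ∈ I := I.sub_mem hy (I.mul_mem_left _ hα)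
  have hne' : y - q * α ≠ 0 := sub_ne_zero.2 hne
  have h1 := hmin _ hmem hne'
  have h2 : (y - q * α) * Q.cj α = ((e - q * M : ℤ) : 𝓞 K) := by
    push_cast
    rw [← he, ← hM]
    ring
  have h3 : Q.v₁ (y - q * α) * Q.v₁ α = |((e - q * M : ℤ) : ℝ)| := by
    rw [← Q.v₁_int, ← h2, Q.v₁_mul, Q.v₁_cj, Q.himag hD α]
  have hM0' : (M : ℝ) ≠ 0 := by exact_mod_cast hM0
  have h4 : |((e - q * M : ℤ) : ℝ)| ≤ |(M : ℝ)| / 2 := by
    have h5 : ((e - q * M : ℤ) : ℝ) = M * ((e : ℝ) / M - q) := by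
      push_cast
      field_simp
    rw [h5, abs_mul]
    have h6 := abs_sub_round ((e : ℝ) / M)
    rw [← hq] at h6
    nlinarith [abs_nonneg (M : ℝ)]
  rw [hMs] at h4
  rw [← h3] at h4
  nlinarith

theorem ULP : ULP_stmt := by
  classical
  intro K _ _ Q hD I hI B μ hB hμ hmu F hF
  obtain ⟨α, hα, hα0, hmin⟩ := ULP_min Q hD I hI
  have hs := ULP_pos Q hα0
  set s : ℝ := Q.v₁ α with hsdef
  have hN0 : 0 < Ideal.absNorm I := by
    rw [Nat.pos_iff_ne_zero]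
    intro h
    exact hI (Ideal.absNorm_eq_zero_iff.1 h)
  have hN : (0 : ℝ) < (Ideal.absNorm I : ℝ) := by exact_mod_cast hN0
  have hDneg : (Q.D : ℝ) < 0 := by exact_mod_cast hD
  have hDabs : |(Q.D : ℝ)| = -(Q.D : ℝ) := abs_of_neg hDneg
  have hd : 0 < √(-(Q.D : ℝ)) := Real.sqrt_pos.2 (by linarith)
  set d : ℝ := √(-(Q.D : ℝ)) with hddef
  set N : ℝ := (Ideal.absNorm I : ℝ) with hNdef
  have hb : 0 ≤ √B := Real.sqrt_nonneg B
  have hv : ∀ x ∈ F, Q.v₁ x ≤ √B := fun x hx => Real.le_sqrt_of_sq_le (hF x hx).2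
  -- Minkowski
  have hmink : s ^ 2 ≤ 4 * d * N := by
    have hA : 0 < √(4 * d * N) := Real.sqrt_pos.2 (by positivity)
    obtain ⟨x, hx, hx0, hx1, -⟩ := Q.hmink I hN0 _ _ hA hA
      (by rw [Real.mul_self_sqrt (by positivity), hDabs]) (fun _ => rfl)
    have h1 := (hmin x hx hx0).trans hx1
    calc s ^ 2 ≤ (√(4 * d * N)) ^ 2 := pow_le_pow_left₀ hs.le h1 2
      _ = 4 * d * N := Real.sq_sqrt (by positivity)
  -- the map
  have hdiv : ∀ x ∈ F, ∃ j : ℤ, Q.Y (x * Q.cj α) = (Ideal.absNorm I : ℤ) * j ∧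
      |(j : ℝ)| ≤ 2 * √B * s / (N * d) := by
    intro x hx
    have h1 : x * Q.cj α ∈ I * Q.bar I :=
      Ideal.mul_mem_mul (hF x hx).1 (Ideal.mem_map_of_mem Q.cj hα)
    rw [Q.mul_bar, Ideal.mem_span_singleton] at h1
    obtain ⟨w, hw⟩ := h1
    have h2 : Q.Y (x * Q.cj α) = (Ideal.absNorm I : ℤ) * Q.Y w := by
      rw [hw]
      have := Q.Y_int_mul (Ideal.absNorm I : ℤ) w
      rw [← this]
      push_cast
      rfl
    refine ⟨Q.Y w, h2, ?_⟩
    have h3 := Q.Y_bound (x * Q.cj α)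
    rw [← Q.himag hD (x * Q.cj α), Q.v₁_mul, Q.v₁_cj, ← Q.himag hD α, h2, hDabs] at h3
    have h4 : |(((Ideal.absNorm I : ℤ) * Q.Y w : ℤ) : ℝ)| = N * |(Q.Y w : ℝ)| := by
      push_cast
      rw [abs_mul, abs_of_pos hN]
    rw [h4] at h3
    rw [le_div_iff₀ (by positivity)]
    have h5 := hv x hx
    nlinarith [hs, h5]
  set f : 𝓞 K → ℤ := fun x => Q.Y (x * Q.cj α) with hf
  set fib : ℕ := ⌊4 * √B / s + 1⌋₊ with hfib
  have hcard := Finset.card_le_mul_card_image (f := f) F fib (by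
    intro a ha
    obtain ⟨x₀, hx₀, rfl⟩ := Finset.mem_image.1 ha
    have hch : ∀ x ∈ F.filter (fun x => f x = f x₀), ∃ q : ℤ, x - x₀ = q * α := by
      intro x hx
      rw [Finset.mem_filter] at hx
      apply ULP_fib Q hD I α hα hα0 hmin
      · exact I.sub_mem (hF x hx.1).1 (hF x₀ hx₀).1
      · have : (x - x₀) * Q.cj α = x * Q.cj α - x₀ * Q.cj α := by ring
        rw [this, Q.Y_sub]
        have h := hx.2
        simp only [hf] at h
        rw [h, sub_self]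
    choose! g hg using hch
    have hinj : Set.InjOn g (F.filter (fun x => f x = f x₀)) := by
      intro x hx y hy hxy
      have h1 := hg x hx
      have h2 := hg y hy
      rw [hxy, ← h2] at h1
      exact sub_left_injective h1
    rw [← Finset.card_image_of_injOn hinj]
    apply Nat.le_floor
    have h := ULP_int ((F.filter (fun x => f x = f x₀)).image g) (2 * √B / s) (by positivity) (by
      intro q hq
      obtain ⟨x, hx, rfl⟩ := Finset.mem_image.1 hq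
      have h1 := hg x hx
      rw [Finset.mem_filter] at hx
      have h2 : |((g x : ℤ) : ℝ)| * s = Q.v₁ (x - x₀) := by
        rw [h1, Q.v₁_mul, Q.v₁_int]
      have h3 : Q.v₁ (x - x₀) ≤ √B + √B := by
        have h4 := Q.v₁_add x (-x₀)
        rw [Q.v₁_neg, ← sub_eq_add_neg] at h4
        linarith [hv x hx.1, hv x₀ hx₀]
      rw [le_div_iff₀ hs, h2]
      linarith)
    calc _ ≤ 2 * (2 * √B / s) + 1 := h
      _ = 4 * √B / s + 1 := by ring)
  -- the image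
  have himg : ((F.image f).card : ℝ) ≤ 2 * (2 * √B * s / (N * d)) + 1 := by
    have hch : ∀ a ∈ F.image f, ∃ j : ℤ, a = (Ideal.absNorm I : ℤ) * j ∧
        |(j : ℝ)| ≤ 2 * √B * s / (N * d) := by
      intro a ha
      obtain ⟨x, hx, rfl⟩ := Finset.mem_image.1 ha
      exact hdiv x hx
    choose! g hg hg2 using hch
    have hinj : Set.InjOn g (F.image f) := by
      intro a ha b hb hab
      rw [hg a ha, hg b hb, hab]
    rw [← Finset.card_image_of_injOn hinj]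
    apply ULP_int _ _ (by positivity)
    intro q hq
    obtain ⟨a, ha, rfl⟩ := Finset.mem_image.1 hq
    exact hg2 a ha
  have h1 : (F.card : ℝ) ≤ (4 * √B / s + 1) * (2 * (2 * √B * s / (N * d)) + 1) := by
    have h2 : (F.card : ℝ) ≤ (fib : ℝ) * ((F.image f).card : ℝ) := by exact_mod_cast hcard
    have h3 : (fib : ℝ) ≤ 4 * √B / s + 1 := Nat.floor_le (by positivity)
    exact h2.trans (mul_le_mul h3 himg (by positivity) (by positivity))
  have hBs : √B * √B = B := Real.mul_self_sqrt hB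
  have h2 : (4 * √B / s + 1) * (2 * (2 * √B * s / (N * d)) + 1) =
      16 * (B / (N * d)) + 4 * (√B / s) + 4 * (√B / s) * (s ^ 2 / (N * d)) + 1 := by
    have : B / (N * d) = √B * √B / (N * d) := by rw [hBs]
    rw [this]
    field_simp
    ring
  have h3 : s ^ 2 / (N * d) ≤ 4 := by
    rw [div_le_iff₀ (by positivity)]
    linarith
  have h4 : √B / s ≤ √(B / μ) := by
    rw [Real.sqrt_div hB]
    apply div_le_div_of_nonneg_left hb (Real.sqrt_pos.2 hμ)
    rw [Real.sqrt_le_left hs.le]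
    exact hmu α hα hα0
  have h5 : 0 ≤ √B / s := by positivity
  have h6 : 0 ≤ B / (N * d) := by positivity
  have h7 : 4 * (√B / s) * (s ^ 2 / (N * d)) ≤ 4 * (√B / s) * 4 :=
    mul_le_mul_of_nonneg_left h3 (by positivity)
  rw [h2] at h1
  linarith

end Pool.Agent.T5
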